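import Pool.Agent.K3h5.FF.Stm

/-!
# Brick EXA (helper2): the sum of the probabilities of the conditions on the numbers of points
-/

set_option autoImplicit false

open MeasureTheory Filter Topology ProbabilityTheory Set
open Pool.Agent.K3h5.FF

namespace Pool.Agent.K3h2.FF

/-- the positions with the mark `inl k` -/
abbrev DD {l : ℕ} (u : Fin l → Label) (k : ℤ) := {i : Fin l // u i = Sum.inl k}

/-- the displacements which occur in `u` -/
noncomputable def KK {l : ℕ} (u : Fin l → Label) : Finset ℤ := (Finset.univ.image u).toLeft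

lemma mem_KK {l : ℕ} (u : Fin l → Label) (k : ℤ) : k ∈ KK u ↔ ∃ i, u i = Sum.inl k := by
  simp [KK]

/-- the assignments below `N` -/
abbrev TT {l : ℕ} (u : Fin l → Label) (N : ℤ → ℕ) :=
  {c : Fin l → ℕ // (c ∈ Asg u ∧ Function.Injective (ix u c)) ∧
    ∀ i k, u i = Sum.inl k → c i < N k}

lemma ix_inl {l : ℕ} (u : Fin l → Label) (c : Fin l → ℕ) (i : Fin l) (k : ℤ)
    (h : u i = Sum.inl k) : ix u c i = Sum.inl (k, c i) := by
  unfold ix; rw [h]

lemma ix_inr {l : ℕ} (u : Fin l → Label) (c : Fin l → ℕ) (i : Fin l) (j : ℕ)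
    (h : u i = Sum.inr j) : ix u c i = Sum.inr j := by
  unfold ix; rw [h]

/-- families of injections -/
def toF {l : ℕ} (u : Fin l → Label) (N : ℤ → ℕ) (c : TT u N) :
    (k : {k // k ∈ KK u}) → (DD u k.1 ↪ Fin (N k.1)) := fun k =>
  ⟨fun i => ⟨c.1 i.1, c.2.2 i.1 k.1 i.2⟩, by
    intro i i' h
    have h1 : c.1 i.1 = c.1 i'.1 := by simpa using h
    have h2 : ix u c.1 i.1 = ix u c.1 i'.1 := by
      rw [ix_inl u c.1 i.1 k.1 i.2, ix_inl u c.1 i'.1 k.1 i'.2, h1]
    exact Subtype.ext (c.2.1.2 h2)⟩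

open Classical in
/-- the assignment of a family of injections -/
noncomputable def ofF {l : ℕ} (u : Fin l → Label) (N : ℤ → ℕ)
    (e : (k : {k // k ∈ KK u}) → (DD u k.1 ↪ Fin (N k.1))) (i : Fin l) : ℕ :=
  if h : ∃ k, u i = Sum.inl k then
    ((e ⟨h.choose, (mem_KK u _).2 ⟨i, h.choose_spec⟩⟩ ⟨i, h.choose_spec⟩ : Fin _) : ℕ) else 0

lemma ofF_inl {l : ℕ} (u : Fin l → Label) (N : ℤ → ℕ)
    (e : (k : {k // k ∈ KK u}) → (DD u k.1 ↪ Fin (N k.1))) (i : Fin l) (k : ℤ)
    (h : u i = Sum.inl k) :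
    ofF u N e i = ((e ⟨k, (mem_KK u _).2 ⟨i, h⟩⟩ ⟨i, h⟩ : Fin _) : ℕ) := by
  have key : ∀ (k k' : ℤ) (h : u i = Sum.inl k) (h' : u i = Sum.inl k'),
      ((e ⟨k, (mem_KK u _).2 ⟨i, h⟩⟩ ⟨i, h⟩ : Fin _) : ℕ) =
      ((e ⟨k', (mem_KK u _).2 ⟨i, h'⟩⟩ ⟨i, h'⟩ : Fin _) : ℕ) := by
    intro k k' h h'
    have : k = k' := Sum.inl_injective (h.symm.trans h')
    subst this
    rfl
  have hex : ∃ k, u i = Sum.inl k := ⟨k, h⟩
  unfold ofF
  rw [dif_pos hex]
  exact key _ _ hex.choose_spec h

lemma ofF_inr {l : ℕ} (u : Fin l → Label) (N : ℤ → ℕ)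
    (e : (k : {k // k ∈ KK u}) → (DD u k.1 ↪ Fin (N k.1))) (i : Fin l) (j : ℕ)
    (h : u i = Sum.inr j) : ofF u N e i = 0 := by
  unfold ofF
  rw [dif_neg]
  rintro ⟨k, hk⟩
  rw [h] at hk
  cases hk

lemma toF_bij {l : ℕ} (u : Fin l → Label) (hu : FrontInj u) (N : ℤ → ℕ) :
    Function.Bijective (toF u N) := by
  constructor
  · intro c c' h
    apply Subtype.ext
    funext i
    rcases hi : u i with k | j
    · have h1 := congrFun h ⟨k, (mem_KK u k).2 ⟨i, hi⟩⟩
      have h2 := congrArg (fun e : DD u k ↪ Fin (N k) => ((e ⟨i, hi⟩ : Fin _) : ℕ)) h1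
      exact h2
    · rw [c.2.1.1 i j hi, c'.2.1.1 i j hi]
  · intro e
    refine ⟨⟨ofF u N e, ⟨?_, ?_⟩, ?_⟩, ?_⟩
    · intro i j hij
      exact ofF_inr u N e i j hij
    · intro i i' h
      rcases hi : u i with k | j
      · rcases hi' : u i' with k' | j'
        · rw [ix_inl u _ i k hi, ix_inl u _ i' k' hi'] at h
          have h1 := Sum.inl_injective h
          have h2 : k = k' := congrArg Prod.fst h1
          have h3 : ofF u N e i = ofF u N e i' := congrArg Prod.snd h1
          subst h2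
          rw [ofF_inl u N e i k hi, ofF_inl u N e i' k hi'] at h3
          have h4 := (e ⟨k, (mem_KK u _).2 ⟨i, hi⟩⟩).injective (Fin.ext h3)
          exact congrArg Subtype.val h4
        · rw [ix_inl u _ i k hi, ix_inr u _ i' j' hi'] at h
          cases h
      · rcases hi' : u i' with k' | j'
        · rw [ix_inr u _ i j hi, ix_inl u _ i' k' hi'] at h
          cases h
        · rw [ix_inr u _ i j hi, ix_inr u _ i' j' hi'] at h
          have h1 : j = j' := Sum.inr_injective h
          subst h1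
          exact hu i i' j hi hi'
    · intro i k hi
      rw [ofF_inl u N e i k hi]
      exact Fin.is_lt _
    · funext k
      apply DFunLike.ext
      intro i
      apply Fin.ext
      show ofF u N e i.1 = _
      rw [ofF_inl u N e i.1 k.1 i.2]

lemma card_TT {l : ℕ} (u : Fin l → Label) (hu : FrontInj u) (N : ℤ → ℕ) :
    ∑' _ : TT u N, (1 : ENNReal) =
      ∏ k ∈ KK u, (((N k).descFactorial (Finset.univ.filter fun i => u i = Sum.inl k).card : ℕ) :
        ENNReal) := by
  classical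
  rw [(Equiv.ofBijective _ (toF_bij u hu N)).tsum_eq
    (fun _ : (k : {k // k ∈ KK u}) → (DD u k.1 ↪ Fin (N k.1)) => (1 : ENNReal))]
  rw [tsum_fintype, Finset.sum_const, Finset.card_univ, Fintype.card_pi]
  simp only [Fintype.card_embedding_eq, Fintype.card_fin, nsmul_eq_mul, mul_one]
  rw [Nat.cast_prod, Finset.prod_coe_sort (KK u)
    (fun k => (((N k).descFactorial (Fintype.card (DD u k)) : ℕ) : ENNReal))]
  refine Finset.prod_congr rfl fun k _ => ?_
  rw [Fintype.card_subtype]

theorem t_EXA : S_PFM → S_EXA := by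
  intro hpfm lam phi Ω _ μ Y hR l u
  classical
  have := hR.prob
  by_cases hu : FrontInj u
  swap
  · rw [if_neg hu]
    have : IsEmpty {c : Fin l → ℕ // c ∈ Asg u ∧ Function.Injective (ix u c)} := by
      constructor
      rintro ⟨c, hc, hinj⟩
      apply hu
      intro i i' j hi hi'
      apply hinj
      rw [ix_inr u c i j hi, ix_inr u c i' j hi']
    rw [tsum_empty]
  rw [if_pos hu]
  set Ac : Set (Fin l → ℕ) := {c | c ∈ Asg u ∧ Function.Injective (ix u c)} with hAc
  set E : (Fin l → ℕ) → Set Ω := fun c =>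
    {ω | ∀ i k, u i = Sum.inl k → ((c i : ℕ) : ℝ) < Y (Sum.inl k) ω} with hE
  have hEm : ∀ c, MeasurableSet (E c) := by
    intro c
    have : E c = ⋂ i, ⋂ k, ⋂ _ : u i = Sum.inl k, {ω | ((c i : ℕ) : ℝ) < Y (Sum.inl k) ω} := by
      ext ω; simp [hE]
    rw [this]
    refine MeasurableSet.iInter fun i => MeasurableSet.iInter fun k => MeasurableSet.iInter fun _ => ?_
    exact measurableSet_lt measurable_const (hR.meas _)
  have hnat : ∀ᵐ ω ∂μ, ∀ k : ℤ, ∃ N : ℕ, Y (Sum.inl k) ω = N := by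
    rw [ae_all_iff]
    intro k
    have h1 : ∀ᵐ y ∂(μ.map (Y (Sum.inl k))), y ∈ range (fun m : ℕ => (m : ℝ)) := by
      rw [hR.count k]
      have hms : MeasurableSet (range (fun m : ℕ => (m : ℝ))) := (countable_range _).measurableSet
      have hmf : Measurable (fun m : ℕ => (m : ℝ)) := measurable_from_nat
      refine (ae_map_iff (p := fun y => y ∈ range (fun m : ℕ => (m : ℝ)))
        hmf.aemeasurable hms).2 ?_
      filter_upwards with m
      exact mem_range_self m
    have h2 := ae_of_ae_map (hR.meas _).aemeasurable h1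
    filter_upwards [h2] with ω hω
    obtain ⟨N, hN⟩ := hω
    exact ⟨N, hN.symm⟩
  have hstep1 : ∑' c : {c : Fin l → ℕ // c ∈ Asg u ∧ Function.Injective (ix u c)}, μ (E c.1) =
      ∫⁻ ω, ∑' c : {c : Fin l → ℕ // c ∈ Asg u ∧ Function.Injective (ix u c)},
        (E c.1).indicator 1 ω ∂μ := by
    rw [lintegral_tsum]
    · refine tsum_congr fun c => ?_
      rw [lintegral_indicator_one (hEm _)]
    · intro c
      exact (measurable_one.indicator (hEm _)).aemeasurable
  let f : ℤ → ℝ → ENNReal := fun k y =>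
    (((⌊y⌋₊).descFactorial (Finset.univ.filter fun i => u i = Sum.inl k).card : ℕ) : ENNReal)
  have hfm : ∀ k, Measurable (f k) := by
    intro k
    exact (measurable_from_nat (f := fun n : ℕ =>
      ((n.descFactorial (Finset.univ.filter fun i => u i = Sum.inl k).card : ℕ) : ENNReal))).comp
        Nat.measurable_floor
  have hstep2 : ∫⁻ ω, ∑' c : {c : Fin l → ℕ // c ∈ Asg u ∧ Function.Injective (ix u c)},
        (E c.1).indicator 1 ω ∂μ = ∫⁻ ω, ∏ k ∈ KK u, f k (Y (Sum.inl k) ω) ∂μ := by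
    refine lintegral_congr_ae ?_
    filter_upwards [hnat] with ω hω
    choose N hN using hω
    have h1 : ∀ k, f k (Y (Sum.inl k) ω) = (((N k).descFactorial
        (Finset.univ.filter fun i => u i = Sum.inl k).card : ℕ) : ENNReal) := by
      intro k
      simp only [f]
      rw [hN k, Nat.floor_natCast]
    rw [Finset.prod_congr rfl fun k _ => h1 k, ← card_TT u hu N]
    have h2 : ∑' c : {c : Fin l → ℕ // c ∈ Asg u ∧ Function.Injective (ix u c)},
        (E c.1).indicator (1 : Ω → ENNReal) ω =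
        ∑' c : Fin l → ℕ, Ac.indicator (fun c => (E c).indicator (1 : Ω → ENNReal) ω) c :=
      tsum_subtype Ac (fun c => (E c).indicator (1 : Ω → ENNReal) ω)
    rw [h2]
    have h3 : ∑' _ : TT u N, (1 : ENNReal) =
        ∑' c : Fin l → ℕ, ({c | (c ∈ Asg u ∧ Function.Injective (ix u c)) ∧
          ∀ i k, u i = Sum.inl k → c i < N k} : Set (Fin l → ℕ)).indicator
            (fun _ => (1 : ENNReal)) c :=
      tsum_subtype ({c | (c ∈ Asg u ∧ Function.Injective (ix u c)) ∧
          ∀ i k, u i = Sum.inl k → c i < N k} : Set (Fin l → ℕ)) (fun _ => (1 : ENNReal))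
    rw [h3]
    refine tsum_congr fun c => ?_
    have hEc : ω ∈ E c ↔ ∀ i k, u i = Sum.inl k → c i < N k := by
      simp only [hE, Set.mem_ofPred_eq]
      constructor
      · intro h i k hi
        have := h i k hi
        rw [hN k] at this
        exact_mod_cast this
      · intro h i k hi
        rw [hN k]
        exact_mod_cast h i k hi
    simp only [indicator_apply, hEc, hAc, Set.mem_ofPred_eq, Pi.one_apply]
    split_ifs <;> simp_all
  have hstep3 : ∫⁻ ω, ∏ k ∈ KK u, f k (Y (Sum.inl k) ω) ∂μ =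
      ∏ k ∈ KK u, ∫⁻ ω, f k (Y (Sum.inl k) ω) ∂μ := by
    have hind : iIndepFun (fun k : ℤ => fun ω => f k (Y (Sum.inl k) ω)) μ := by
      have h1 : iIndepFun (fun k : ℤ => Y (Sum.inl k)) μ :=
        hR.indep.precomp Sum.inl_injective
      exact h1.comp f hfm
    exact lintegral_prod_eq_prod_lintegral_of_indepFun (KK u) _ hind
      (fun k => (hfm k).comp (hR.meas _))
  have hstep4 : ∀ k, ∫⁻ ω, f k (Y (Sum.inl k) ω) ∂μ =
      ENNReal.ofReal (mass lam (Sum.inl k)) ^
        (Finset.univ.filter fun i => u i = Sum.inl k).card := by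
    intro k
    have h1 : ∫⁻ ω, f k (Y (Sum.inl k) ω) ∂μ = ∫⁻ y, f k y ∂(μ.map (Y (Sum.inl k))) :=
      (lintegral_map (hfm k) (hR.meas _)).symm
    rw [h1, hR.count k, lintegral_map (hfm k) (by fun_prop)]
    simp only [f, Nat.floor_natCast]
    rw [hpfm]
    rfl
  rw [hstep1, hstep2, hstep3, Finset.prod_congr rfl fun k _ => hstep4 k]
  rw [Finset.prod_comp (fun x => ENNReal.ofReal (mass lam x)) u]
  rw [← Finset.toLeft_disjSum_toRight (u := Finset.univ.image u), Finset.prod_disjSum]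
  have hr : ∏ x ∈ (Finset.univ.image u).toRight, ENNReal.ofReal (mass lam (Sum.inr x)) ^
      (Finset.univ.filter fun i => u i = Sum.inr x).card = 1 := by
    refine Finset.prod_eq_one fun x _ => ?_
    simp [mass]
  rw [hr, mul_one]
  rfl

end Pool.Agent.K3h2.FF
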